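import Pool.Agent.H560.E2.Stm

/-!
# Task BIL: the bilinear sum (theorem `bilP`, from `S_winP`)
-/

set_option autoImplicit false

namespace Pool.Agent.H139.E2

open Polynomial Finset
open scoped Classical
open Pool.Agent.H985.Chow (mob MD)
open Pool.Agent.H985.Chow.Asm (G G_inj G_surj G_add sum_MD card_deg mem_of_natDegree_lt
  natDegree_lt_of_mem abs_mob)
open Pool.Agent.H985.Par (GoodV Sft)
open Pool.Agent.H694.Typ (Mn Irn PU mem_Mn card_Mn mem_Irn mem_PU)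
open Pool.Agent.H560.E2

variable {K : Type} [Field K]

theorem eq_of_dvd {P Q : K[X]} (hP : P.Monic) (hP' : Irreducible P) (hQ : Q.Monic)
    (hQ' : Irreducible Q) (h : P ∣ Q) : P = Q :=
  eq_of_monic_of_associated hP hQ ((hP'.dvd_irreducible_iff_associated hQ').mp h)

variable [Fintype K]

theorem prod_inj {m : ℕ} {T T' : Finset K[X]} (hT : T ⊆ PU K m) (hT' : T' ⊆ PU K m)
    (h : ∏ P ∈ T, P = ∏ P ∈ T', P) : T = T' := by
  have key : ∀ S S' : Finset K[X], S ⊆ PU K m → S' ⊆ PU K m → ∏ P ∈ S, P = ∏ P ∈ S', P →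
      S ⊆ S' := by
    intro S S' hS hS' hh P hP
    have hP1 := mem_PU.1 (hS hP)
    have hd : P ∣ ∏ Q ∈ S', Q := by
      rw [← hh]
      exact dvd_prod_of_mem _ hP
    obtain ⟨Q, hQ, hPQ⟩ := (hP1.2.1.prime.dvd_finsetProd_iff _).1 hd
    have hQ1 := mem_PU.1 (hS' hQ)
    rw [eq_of_dvd hP1.1 hP1.2.1 hQ1.1 hQ1.2.1 hPQ]
    exact hQ
  exact subset_antisymm (key T T' hT hT' h) (key T' T hT' hT h.symm)

theorem natDegree_prod {m : ℕ} {T : Finset K[X]} (hT : T ⊆ PU K m) :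
    (∏ P ∈ T, P).natDegree = ∑ P ∈ T, P.natDegree :=
  natDegree_prod_of_monic _ _ fun P hP => (mem_PU.1 (hT hP)).1

/-- The number of the sets with a nonzero weight. -/
theorem card_supp {A m : ℕ} {U : Finset K[X] → ℝ}
    (hU : ∀ T, U T ≠ 0 → T ⊆ PU K m ∧ ∑ P ∈ T, P.natDegree ≤ A * m) :
    ((PU K m).powerset.filter fun T => U T ≠ 0).card ≤ Fintype.card K ^ (A * m + 1) := by
  rw [← card_deg (K := K) (A * m + 1), ← Finset.card_univ]
  have hmem : ∀ T ∈ (PU K m).powerset.filter fun T => U T ≠ 0,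
      (∏ P ∈ T, P) ∈ degreeLT K (A * m + 1) := by
    intro T hT
    have h1 := hU T (mem_filter.1 hT).2
    refine mem_of_natDegree_lt (Or.inr ?_)
    rw [natDegree_prod h1.1]
    omega
  refine Finset.card_le_card_of_injOn
    (fun T => if h : (∏ P ∈ T, P) ∈ degreeLT K (A * m + 1) then ⟨_, h⟩ else 0)
    (fun _ _ => mem_univ _) ?_
  intro T hT T' hT' heq
  have h1 := hmem T hT
  have h2 := hmem T' hT'
  dsimp only at heq
  rw [dif_pos h1, dif_pos h2] at heq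
  have h3 := congrArg Subtype.val heq
  exact prod_inj (hU T (mem_filter.1 hT).2).1 (hU T' (mem_filter.1 hT').2).1 h3

theorem th_abs {A m k : ℕ} {U : Finset K[X] → ℝ} (hU1 : ∀ T, |U T| ≤ 1)
    (hU : ∀ T, U T ≠ 0 → T ⊆ PU K m ∧ ∑ P ∈ T, P.natDegree ≤ A * m)
    (α : Fin k → K[X]) (f : K[X]) :
    |th m U α f| ≤ (Fintype.card K : ℝ) ^ (A * m + 1) := by
  unfold th
  refine (abs_sum_le_sum_abs _ _).trans ?_
  have h1 : ∀ T ∈ (PU K m).powerset, |if ∀ P ∈ T, ∃ i, P ∣ f + α i then U T else 0| ≤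
      if U T ≠ 0 then (1 : ℝ) else 0 := by
    intro T _
    by_cases h0 : U T = 0
    · rw [h0, ite_self, abs_zero]
      simp
    · rw [if_pos h0]
      split_ifs
      · exact hU1 T
      · simp
  refine (sum_le_sum h1).trans ?_
  rw [← sum_filter, sum_const, nsmul_eq_mul, mul_one]
  exact_mod_cast card_supp hU

/-- A residue class modulo a prime of large degree. -/
theorem card_class {d y : ℕ} (hyd : y ≤ d) {R p t : K[X]} (hR : Irreducible R)
    (hRy : y < R.natDegree) (hRp : ¬ R ∣ p) :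
    ((univ : Finset (degreeLT K d)).filter fun v : degreeLT K d =>
      R ∣ p * (X ^ d + (v : K[X])) + t).card ≤ Fintype.card K ^ (d - y) := by
  by_cases hne : ((univ : Finset (degreeLT K d)).filter fun v : degreeLT K d =>
      R ∣ p * (X ^ d + (v : K[X])) + t).Nonempty
  · obtain ⟨v0, hv0⟩ := hne
    rw [mem_filter] at hv0
    rw [← card_deg (K := K) (d - y), ← Finset.card_univ]
    have hdiv : ∀ v ∈ (univ : Finset (degreeLT K d)).filter fun v : degreeLT K d =>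
        R ∣ p * (X ^ d + (v : K[X])) + t, ∃ u : degreeLT K (d - y),
          (v : K[X]) = (v0 : K[X]) + R * (u : K[X]) := by
      intro v hv
      rw [mem_filter] at hv
      have h1 : R ∣ p * ((v : K[X]) - (v0 : K[X])) := by
        have := dvd_sub hv.2 hv0.2
        have h2 : p * (X ^ d + (v : K[X])) + t - (p * (X ^ d + (v0 : K[X])) + t) =
            p * ((v : K[X]) - (v0 : K[X])) := by ring
        rwa [h2] at this
      obtain ⟨u, hu⟩ := (hR.prime.dvd_or_dvd h1).resolve_left hRp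
      refine ⟨⟨u, ?_⟩, ?_⟩
      · by_cases hu0 : u = 0
        · exact mem_of_natDegree_lt (Or.inl hu0)
        · have hsub : (v : K[X]) - (v0 : K[X]) ∈ degreeLT K d := sub_mem v.2 v0.2
          have hne : (v : K[X]) - (v0 : K[X]) ≠ 0 := by
            rw [hu]
            exact mul_ne_zero hR.ne_zero hu0
          have hlt := natDegree_lt_of_mem hsub hne
          rw [hu, natDegree_mul hR.ne_zero hu0] at hlt
          exact mem_of_natDegree_lt (Or.inr (by omega))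
      · show (v : K[X]) = (v0 : K[X]) + R * u
        rw [← hu]
        ring
    choose! f hf using hdiv
    refine Finset.card_le_card_of_injOn f (fun _ _ => mem_univ _) ?_
    intro v hv v' hv' heq
    apply Subtype.ext
    rw [hf v hv, hf v' hv', heq]
  · rw [not_nonempty_iff_eq_empty.1 hne, card_empty]
    exact Nat.zero_le _

omit [Fintype K] in
/-- If `p` does not divide `α` then it does not divide the second coordinate of `p α`. -/
theorem not_dvd_t {p α s t : K[X]} (hp : Irreducible p) (h : p * α = s ^ 2 + X * t ^ 2)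
    (hα : ¬ p ∣ α) : ¬ p ∣ t := by
  rintro ⟨t', rfl⟩
  have h1 : p ∣ s ^ 2 := by
    have h2 : s ^ 2 = p * (α - X * (p * t' ^ 2)) := by
      have : s ^ 2 = p * α - X * (p * t') ^ 2 := by rw [h]; ring
      rw [this]; ring
    exact ⟨_, h2⟩
  obtain ⟨s', rfl⟩ := hp.prime.dvd_of_dvd_pow h1
  apply hα
  refine ⟨s' ^ 2 + X * t' ^ 2, ?_⟩
  have h3 : p * α = p * (p * (s' ^ 2 + X * t' ^ 2)) := by rw [h]; ring
  exact mul_left_cancel₀ hp.ne_zero h3

/-- The large prime divisors of `F`. -/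
noncomputable def PF (F : K[X]) (y : ℕ) : Finset K[X] :=
  (PU K F.natDegree).filter fun P => P ∣ F ∧ y < P.natDegree

theorem mem_PF {F : K[X]} (hF : F ≠ 0) {y : ℕ} {P : K[X]} :
    P ∈ PF F y ↔ P.Monic ∧ Irreducible P ∧ P ∣ F ∧ y < P.natDegree := by
  unfold PF
  rw [mem_filter, mem_PU]
  constructor
  · rintro ⟨⟨h1, h2, h3⟩, h4, h5⟩
    exact ⟨h1, h2, h4, h5⟩
  · rintro ⟨h1, h2, h3, h4⟩
    exact ⟨⟨h1, h2, natDegree_le_of_dvd h3 hF⟩, h3, h4⟩

theorem card_PF {F : K[X]} (hF : F ≠ 0) (y : ℕ) : (PF F y).card * y ≤ F.natDegree := by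
  have h1 : ∏ P ∈ PF F y, P ∣ F := by
    apply Finset.prod_dvd_of_coprime
    · intro P hP Q hQ hne
      rw [mem_coe, mem_PF hF] at hP hQ
      exact Pool.Agent.H694.Typ.coprime_of_ne hP.1 hP.2.1 hQ.1 hQ.2.1 hne
    · intro P hP
      exact ((mem_PF hF).1 hP).2.2.1
  have h2 := natDegree_le_of_dvd h1 hF
  rw [natDegree_prod_of_monic _ _ (fun P hP => ((mem_PF hF).1 hP).1)] at h2
  refine le_trans ?_ h2
  rw [← smul_eq_mul, ← sum_const]
  exact sum_le_sum fun P hP => ((mem_PF hF).1 hP).2.2.2.le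

/-- The number of exceptional second coordinates. -/
theorem card_bad {d y k' : ℕ} (hyd : y ≤ d) {F : K[X]} (hF : F ≠ 0) {p p' : K[X]}
    (α t t' s s' : Fin k' → K[X]) (hp : p.Monic ∧ Irreducible p) (hp' : p'.Monic ∧ Irreducible p')
    (hα : ∀ i, ¬ p ∣ α i ∧ ¬ p' ∣ α i) (hs : ∀ i, p * α i = s i ^ 2 + X * t i ^ 2)
    (hs' : ∀ i, p' * α i = s' i ^ 2 + X * t' i ^ 2) :
    ((univ : Finset (degreeLT K d)).filter fun v : degreeLT K d =>
      ¬ ∀ P : K[X], P.Monic → Irreducible P → y < P.natDegree → P ∣ F →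
        ∀ i, ¬ P ∣ p * (X ^ d + (v : K[X])) + t i ∧ ¬ P ∣ p' * (X ^ d + (v : K[X])) + t' i).card ≤
      (PF F y).card * (k' * (2 * Fintype.card K ^ (d - y))) := by
  have hsub : ((univ : Finset (degreeLT K d)).filter fun v : degreeLT K d =>
      ¬ ∀ P : K[X], P.Monic → Irreducible P → y < P.natDegree → P ∣ F →
        ∀ i, ¬ P ∣ p * (X ^ d + (v : K[X])) + t i ∧ ¬ P ∣ p' * (X ^ d + (v : K[X])) + t' i) ⊆
      (PF F y).biUnion fun P => (univ : Finset (Fin k')).biUnion fun i =>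
        ((univ : Finset (degreeLT K d)).filter fun v : degreeLT K d =>
          P ∣ p * (X ^ d + (v : K[X])) + t i) ∪
        ((univ : Finset (degreeLT K d)).filter fun v : degreeLT K d =>
          P ∣ p' * (X ^ d + (v : K[X])) + t' i) := by
    intro v hv
    rw [mem_filter] at hv
    have h1 := hv.2
    push Not at h1
    obtain ⟨P, h2, h3, h4, h5, i, h6⟩ := h1
    rw [mem_biUnion]
    refine ⟨P, (mem_PF hF).2 ⟨h2, h3, h5, h4⟩, ?_⟩
    rw [mem_biUnion]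
    refine ⟨i, mem_univ _, ?_⟩
    rw [mem_union, mem_filter, mem_filter]
    by_cases h7 : P ∣ p * (X ^ d + (v : K[X])) + t i
    · exact Or.inl ⟨mem_univ _, h7⟩
    · exact Or.inr ⟨mem_univ _, h6 h7⟩
  have hone : ∀ (P r τ : K[X]), P.Monic → Irreducible P → y < P.natDegree → r.Monic →
      Irreducible r → ¬ r ∣ τ →
      ((univ : Finset (degreeLT K d)).filter fun v : degreeLT K d =>
          P ∣ r * (X ^ d + (v : K[X])) + τ).card ≤ Fintype.card K ^ (d - y) := by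
    intro P r τ hP1 hP2 hP3 hr1 hr2 hrτ
    by_cases hPr : P ∣ r
    · have he := eq_of_dvd hP1 hP2 hr1 hr2 hPr
      subst he
      have hem : ((univ : Finset (degreeLT K d)).filter fun v : degreeLT K d =>
          P ∣ P * (X ^ d + (v : K[X])) + τ) = ∅ := by
        rw [filter_eq_empty_iff]
        intro v _ h
        exact hrτ ((dvd_add_right (dvd_mul_right P _)).1 h)
      rw [hem, card_empty]
      exact Nat.zero_le _
    · exact card_class hyd hP2 hP3 hPr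
  refine (card_le_card hsub).trans ?_
  refine card_biUnion_le.trans ?_
  rw [← smul_eq_mul, ← sum_const]
  refine sum_le_sum fun P hP => ?_
  rw [mem_PF hF] at hP
  refine card_biUnion_le.trans ?_
  have hk : k' * (2 * Fintype.card K ^ (d - y)) =
      ∑ _i : Fin k', 2 * Fintype.card K ^ (d - y) := by
    rw [sum_const, Finset.card_univ, Fintype.card_fin, smul_eq_mul]
  rw [hk]
  refine sum_le_sum fun i _ => ?_
  refine (card_union_le _ _).trans ?_
  rw [two_mul]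
  exact add_le_add
    (hone P p (t i) hP.1 hP.2.1 hP.2.2.2 hp.1 hp.2 (not_dvd_t hp.2 (hs i) (hα i).1))
    (hone P p' (t' i) hP.1 hP.2.1 hP.2.2.2 hp'.1 hp'.2 (not_dvd_t hp'.2 (hs' i) (hα i).2))

end Pool.Agent.H139.E2

namespace Pool.Agent.H139.E2

open Polynomial Finset
open scoped Classical
open Pool.Agent.H985.Chow (mob MD)
open Pool.Agent.H985.Chow.Asm (G G_inj G_surj G_add sum_MD card_deg mem_of_natDegree_lt
  natDegree_lt_of_mem abs_mob)
open Pool.Agent.H985.Par (GoodV Sft)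
open Pool.Agent.H694.Typ (Mn Irn PU mem_Mn card_Mn mem_Irn mem_PU)
open Pool.Agent.H560.E2

variable {K : Type} [Field K]

theorem GoodV_mono {R : Set K[X]} {δ κ κ' : ℝ} {d : ℕ} {b : K[X]} (h : κ ≤ κ')
    (hb : GoodV R δ κ d b) : GoodV R δ κ' d b := by
  obtain ⟨e, h₁, h₂, a1, a2, a3, a4, a5, a6, a7, a8, a9, a10⟩ := hb
  exact ⟨e, h₁, h₂, a1, a2, a3, a4, a5, a6, a7,
    a8.trans (mul_le_mul_of_nonneg_right h (Nat.cast_nonneg d)), a9, a10⟩

variable [Fintype K]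

/-- The weight of a set of primes at the value `f`. -/
noncomputable def ind {k : ℕ} (α : Fin k → K[X]) (T : Finset K[X]) (f : K[X]) : ℝ :=
  if ∀ P ∈ T, ∃ i, P ∣ f + α i then 1 else 0

omit [Fintype K] in
theorem ind_abs {k : ℕ} (α : Fin k → K[X]) (T : Finset K[X]) (f : K[X]) : |ind α T f| ≤ 1 := by
  unfold ind
  split_ifs <;> simp

theorem th_eq {m k : ℕ} (U : Finset K[X] → ℝ) (α : Fin k → K[X]) (f : K[X]) :
    th m U α f = ∑ T ∈ (PU K m).powerset, U T * ind α T f := by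
  unfold th ind
  refine sum_congr rfl fun T _ => ?_
  split_ifs <;> simp

omit [Fintype K] in
theorem ind_congr {k : ℕ} (α : Fin k → K[X]) (T : Finset K[X]) {f g : K[X]}
    (h : ∀ P ∈ T, P ∣ f - g) : ind α T f = ind α T g := by
  unfold ind
  have : (∀ P ∈ T, ∃ i, P ∣ f + α i) ↔ (∀ P ∈ T, ∃ i, P ∣ g + α i) := by
    refine forall₂_congr fun P hP => exists_congr fun i => ?_
    have e : f + α i = (f - g) + (g + α i) := by ring
    rw [e]
    exact dvd_add_right (h P hP)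
  rw [if_congr this rfl rfl]

/-- The function of the pair `p`, `g`. -/
noncomputable def xs {k k' : ℕ} (y : ℕ) (δ κ : ℝ) (d j m : ℕ) (U : Finset K[X] → ℝ)
    (α : Fin k → K[X]) (e : Fin k' → Fin k) (p g : K[X]) : ℝ :=
  if ∀ i : Fin k', GdF y δ κ (d + j) (p * (p * g + α (e i))) then
    th m U α (p * g) * ∏ i : Fin k', (mob (p * g + α (e i)) : ℝ) else 0

omit [Fintype K] in
theorem prod_mob_abs {ι : Type} (s : Finset ι) (f : ι → K[X]) :
    |∏ i ∈ s, (mob (f i) : ℝ)| ≤ 1 := by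
  rw [abs_prod]
  exact prod_le_one (fun _ _ => abs_nonneg _) fun i _ => abs_mob _

theorem xs_abs {k k' A : ℕ} {y : ℕ} {δ κ : ℝ} {d j m : ℕ} {U : Finset K[X] → ℝ}
    (hU1 : ∀ T, |U T| ≤ 1)
    (hU : ∀ T, U T ≠ 0 → T ⊆ PU K m ∧ ∑ P ∈ T, P.natDegree ≤ A * m)
    (α : Fin k → K[X]) (e : Fin k' → Fin k) (p g : K[X]) :
    |xs y δ κ d j m U α e p g| ≤ (Fintype.card K : ℝ) ^ (A * m + 1) := by
  unfold xs
  split_ifs
  · rw [abs_mul]
    calc |th m U α (p * g)| * |∏ i : Fin k', (mob (p * g + α (e i)) : ℝ)|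
        ≤ (Fintype.card K : ℝ) ^ (A * m + 1) * 1 :=
          mul_le_mul (th_abs hU1 hU α _) (prod_mob_abs _ _) (abs_nonneg _) (by positivity)
      _ = _ := mul_one _
  · rw [abs_zero]
    positivity

section
variable [CharP K 2]

/-- The condition depends only on the second coordinate. -/
theorem xs_G {k k' : ℕ} (y : ℕ) (δ κ : ℝ) (d j m : ℕ) (U : Finset K[X] → ℝ)
    (α : Fin k → K[X]) (e : Fin k' → Fin k) (p a B : K[X]) (s t : Fin k' → K[X])
    (hs : ∀ i, p * α (e i) = s i ^ 2 + X * t i ^ 2) :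
    xs y δ κ d j m U α e p (a ^ 2 + X * B ^ 2) =
      if ∀ i : Fin k', GoodV {P : K[X] | P.natDegree ≤ y} δ κ (d + j) (p * B + t i) then
        th m U α (p * (a ^ 2 + X * B ^ 2)) *
          ∏ i : Fin k', (mob (p * (a ^ 2 + X * B ^ 2) + α (e i)) : ℝ) else 0 := by
  unfold xs
  refine if_congr (forall_congr' fun i => ?_) rfl rfl
  have h1 : p * (p * (a ^ 2 + X * B ^ 2) + α (e i)) = G (p * a + s i) (p * B + t i) := by
    rw [G_add, mul_add p, hs i]
    unfold G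
    ring
  unfold GdF
  constructor
  · rintro ⟨a', b', hab, hg⟩
    rw [h1] at hab
    have h2 : G (p * a + s i) (p * B + t i) = G a' b' := hab
    rw [(G_inj h2).2]
    exact hg
  · intro hg
    exact ⟨p * a + s i, p * B + t i, h1, hg⟩

/-- The pairs `(A, B)` for the monic polynomials of degree `2 d + 1`. -/
theorem sum_Mn (d : ℕ) (f : K[X] → ℝ) :
    ∑ g ∈ Mn K (2 * d + 1), f g = ∑ v' : degreeLT K d, ∑ v : degreeLT K (d + 1),
      f ((v : K[X]) ^ 2 + X * (X ^ d + (v' : K[X])) ^ 2) := by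
  have h1 : (MD K (2 * d + 1)) = ((Mn K (2 * d + 1) : Finset K[X]) : Set K[X]) := by
    ext g
    rw [mem_coe, mem_Mn]
    rfl
  have h2 := sum_MD (K := K) (2 * d + 1) f
  rw [h1, finsum_mem_coe_finset] at h2
  rw [h2]
  have e1 : (2 * d + 1) / 2 = d := by omega
  have e2 : (2 * d + 1 + 1) / 2 = d + 1 := by omega
  have e3 : Pool.Agent.H985.Chow.Asm.ta K (2 * d + 1) = 0 := by
    unfold Pool.Agent.H985.Chow.Asm.ta
    rw [if_neg (by omega)]
  have e4 : Pool.Agent.H985.Chow.Asm.tb K (2 * d + 1) = X ^ d := by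
    unfold Pool.Agent.H985.Chow.Asm.tb
    rw [if_neg (by omega), e1]
  rw [e1, e2]
  refine sum_congr rfl fun v' _ => sum_congr rfl fun v _ => ?_
  rw [e3, e4, zero_add]
  rfl

end

/-- The sum over `A` for a generic `B`. -/
theorem fibre {k k' A m : ℕ} {U : Finset K[X] → ℝ} (hU1 : ∀ T, |U T| ≤ 1)
    (hU : ∀ T, U T ≠ 0 → T ⊆ PU K m ∧ ∑ P ∈ T, P.natDegree ≤ A * m)
    (α : Fin k → K[X]) (e : Fin k' → Fin k) (d y : ℕ) (κ E : ℝ) (hE : 0 ≤ E) (p p' B : K[X])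
    (hmy : m ≤ y) (hAm : (2 * (A * m) : ℝ) ≤ κ * d)
    (hwin : ∀ (D : K[X]) (w : K[X] → ℝ), D ≠ 0 → (D.natDegree : ℝ) ≤ κ * d →
      (∀ P : K[X], P.Monic → Irreducible P → P ∣ D → P.natDegree ≤ y) →
      (∀ u, |w u| ≤ 1) → (∀ u v, w (u + D * v) = w u) →
      |∑ a : degreeLT K (d + 1), w (a : K[X]) *
        ∏ i, ((mob (p * ((a : K[X]) ^ 2 + X * B ^ 2) + α (e i)) : ℝ) *
          (mob (p' * ((a : K[X]) ^ 2 + X * B ^ 2) + α (e i)) : ℝ))| ≤ E) :
    |∑ a : degreeLT K (d + 1),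
      (th m U α (p * ((a : K[X]) ^ 2 + X * B ^ 2)) *
          ∏ i, (mob (p * ((a : K[X]) ^ 2 + X * B ^ 2) + α (e i)) : ℝ)) *
      (th m U α (p' * ((a : K[X]) ^ 2 + X * B ^ 2)) *
          ∏ i, (mob (p' * ((a : K[X]) ^ 2 + X * B ^ 2) + α (e i)) : ℝ))| ≤
      (Fintype.card K : ℝ) ^ (A * m + 1) * (Fintype.card K : ℝ) ^ (A * m + 1) * E := by
  set Y := (PU K m).powerset.filter fun T => U T ≠ 0 with hY
  have hth : ∀ f, th m U α f = ∑ T ∈ Y, U T * ind α T f := by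
    intro f
    rw [th_eq, hY, sum_filter]
    refine sum_congr rfl fun T _ => ?_
    by_cases h : U T = 0
    · rw [if_neg (not_not.2 h), h, zero_mul]
    · rw [if_pos h]
  have hcard : (Y.card : ℝ) ≤ (Fintype.card K : ℝ) ^ (A * m + 1) := by
    exact_mod_cast card_supp hU
  have hmain : ∀ T ∈ Y, ∀ T' ∈ Y, |∑ a : degreeLT K (d + 1),
      (ind α T (p * ((a : K[X]) ^ 2 + X * B ^ 2)) * ind α T' (p' * ((a : K[X]) ^ 2 + X * B ^ 2))) *
        ∏ i, ((mob (p * ((a : K[X]) ^ 2 + X * B ^ 2) + α (e i)) : ℝ) *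
          (mob (p' * ((a : K[X]) ^ 2 + X * B ^ 2) + α (e i)) : ℝ))| ≤ E := by
    intro T hT T' hT'
    have hT1 := hU T (mem_filter.1 hT).2
    have hT1' := hU T' (mem_filter.1 hT').2
    have hPm : ∀ P ∈ T ∪ T', P.Monic ∧ Irreducible P ∧ P.natDegree ≤ m := by
      intro P hP
      rcases mem_union.1 hP with h | h
      · exact mem_PU.1 (hT1.1 h)
      · exact mem_PU.1 (hT1'.1 h)
    set D : K[X] := ∏ P ∈ T ∪ T', P with hD
    have hdvd : ∀ P ∈ T ∪ T', P ∣ D := fun P hP => dvd_prod_of_mem _ hP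
    refine hwin D (fun u => ind α T (p * (u ^ 2 + X * B ^ 2)) *
      ind α T' (p' * (u ^ 2 + X * B ^ 2))) ?_ ?_ ?_ ?_ ?_
    · exact prod_ne_zero_iff.2 fun P hP => (hPm P hP).2.1.ne_zero
    · rw [hD, natDegree_prod_of_monic _ _ fun P hP => (hPm P hP).1]
      have h1 : ∑ P ∈ T ∪ T', P.natDegree ≤ ∑ P ∈ T, P.natDegree + ∑ P ∈ T', P.natDegree := by
        rw [← sum_union_inter]
        exact Nat.le_add_right _ _
      have h2 : ∑ P ∈ T ∪ T', P.natDegree ≤ 2 * (A * m) := by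
        have := hT1.2
        have := hT1'.2
        omega
      refine le_trans ?_ hAm
      exact_mod_cast h2
    · intro P hP1 hP2 hP3
      obtain ⟨Q, hQ, hPQ⟩ := (hP2.prime.dvd_finsetProd_iff _).1 hP3
      rw [eq_of_dvd hP1 hP2 (hPm Q hQ).1 (hPm Q hQ).2.1 hPQ]
      exact (hPm Q hQ).2.2.trans hmy
    · intro u
      rw [abs_mul]
      exact mul_le_one₀ (ind_abs _ _ _) (abs_nonneg _) (ind_abs _ _ _)
    · intro u v
      have hdiff : ∀ r : K[X], ∀ P ∈ T ∪ T', P ∣ r * ((u + D * v) ^ 2 + X * B ^ 2) -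
          r * (u ^ 2 + X * B ^ 2) := by
        intro r P hP
        have e1 : r * ((u + D * v) ^ 2 + X * B ^ 2) - r * (u ^ 2 + X * B ^ 2) =
            D * (r * (2 * u * v + D * v ^ 2)) := by ring
        rw [e1]
        exact (hdvd P hP).mul_right _
      rw [ind_congr α T fun P hP => hdiff p P (mem_union_left _ hP),
        ind_congr α T' fun P hP => hdiff p' P (mem_union_right _ hP)]
  have hexp : (∑ a : degreeLT K (d + 1),
      (th m U α (p * ((a : K[X]) ^ 2 + X * B ^ 2)) *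
          ∏ i, (mob (p * ((a : K[X]) ^ 2 + X * B ^ 2) + α (e i)) : ℝ)) *
      (th m U α (p' * ((a : K[X]) ^ 2 + X * B ^ 2)) *
          ∏ i, (mob (p' * ((a : K[X]) ^ 2 + X * B ^ 2) + α (e i)) : ℝ))) =
      ∑ T ∈ Y, ∑ T' ∈ Y, U T * U T' * ∑ a : degreeLT K (d + 1),
        (ind α T (p * ((a : K[X]) ^ 2 + X * B ^ 2)) *
          ind α T' (p' * ((a : K[X]) ^ 2 + X * B ^ 2))) *
        ∏ i, ((mob (p * ((a : K[X]) ^ 2 + X * B ^ 2) + α (e i)) : ℝ) *
          (mob (p' * ((a : K[X]) ^ 2 + X * B ^ 2) + α (e i)) : ℝ)) := by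
    have h1 : ∀ a : degreeLT K (d + 1),
        (th m U α (p * ((a : K[X]) ^ 2 + X * B ^ 2)) *
          ∏ i, (mob (p * ((a : K[X]) ^ 2 + X * B ^ 2) + α (e i)) : ℝ)) *
        (th m U α (p' * ((a : K[X]) ^ 2 + X * B ^ 2)) *
          ∏ i, (mob (p' * ((a : K[X]) ^ 2 + X * B ^ 2) + α (e i)) : ℝ)) =
        ∑ T ∈ Y, ∑ T' ∈ Y, U T * U T' * ((ind α T (p * ((a : K[X]) ^ 2 + X * B ^ 2)) *
          ind α T' (p' * ((a : K[X]) ^ 2 + X * B ^ 2))) *
        ∏ i, ((mob (p * ((a : K[X]) ^ 2 + X * B ^ 2) + α (e i)) : ℝ) *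
          (mob (p' * ((a : K[X]) ^ 2 + X * B ^ 2) + α (e i)) : ℝ))) := by
      intro a
      rw [hth, hth, prod_mul_distrib]
      have h2 : ∀ x y u v : ℝ, (x * u) * (y * v) = (x * y) * (u * v) := by intros; ring
      rw [h2, sum_mul_sum, sum_mul]
      refine sum_congr rfl fun T _ => ?_
      rw [sum_mul]
      refine sum_congr rfl fun T' _ => ?_
      ring
    rw [sum_congr rfl fun a _ => h1 a, sum_comm]
    refine sum_congr rfl fun T _ => ?_
    rw [sum_comm]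
    refine sum_congr rfl fun T' _ => ?_
    rw [mul_sum]
  rw [hexp]
  refine (abs_sum_le_sum_abs _ _).trans ?_
  have h3 : ∀ T ∈ Y, |∑ T' ∈ Y, U T * U T' * ∑ a : degreeLT K (d + 1),
        (ind α T (p * ((a : K[X]) ^ 2 + X * B ^ 2)) *
          ind α T' (p' * ((a : K[X]) ^ 2 + X * B ^ 2))) *
        ∏ i, ((mob (p * ((a : K[X]) ^ 2 + X * B ^ 2) + α (e i)) : ℝ) *
          (mob (p' * ((a : K[X]) ^ 2 + X * B ^ 2) + α (e i)) : ℝ))| ≤
      (Fintype.card K : ℝ) ^ (A * m + 1) * E := by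
    intro T hT
    refine (abs_sum_le_sum_abs _ _).trans ?_
    have h4 : ∀ T' ∈ Y, |U T * U T' * ∑ a : degreeLT K (d + 1),
        (ind α T (p * ((a : K[X]) ^ 2 + X * B ^ 2)) *
          ind α T' (p' * ((a : K[X]) ^ 2 + X * B ^ 2))) *
        ∏ i, ((mob (p * ((a : K[X]) ^ 2 + X * B ^ 2) + α (e i)) : ℝ) *
          (mob (p' * ((a : K[X]) ^ 2 + X * B ^ 2) + α (e i)) : ℝ))| ≤ E := by
      intro T' hT'
      rw [abs_mul, abs_mul]
      calc |U T| * |U T'| * _ ≤ 1 * 1 * E := by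
            refine mul_le_mul (mul_le_mul (hU1 T) (hU1 T') (abs_nonneg _) zero_le_one)
              (hmain T hT T' hT') (abs_nonneg _) (by norm_num)
        _ = E := by ring
    refine (sum_le_sum h4).trans ?_
    rw [sum_const, nsmul_eq_mul]
    exact mul_le_mul_of_nonneg_right hcard hE
  refine (sum_le_sum h3).trans ?_
  rw [sum_const, nsmul_eq_mul, mul_assoc]
  exact mul_le_mul_of_nonneg_right hcard (by positivity)

end Pool.Agent.H139.E2

namespace Pool.Agent.H139.E2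

open Polynomial Finset
open scoped Classical
open Pool.Agent.H985.Chow (mob MD)
open Pool.Agent.H985.Chow.Asm (G G_inj G_surj G_add sum_MD card_deg mem_of_natDegree_lt
  natDegree_lt_of_mem abs_mob)
open Pool.Agent.H985.Par (GoodV Sft)
open Pool.Agent.H694.Typ (Mn Irn PU mem_Mn card_Mn mem_Irn mem_PU)
open Pool.Agent.H560.E2

variable {K : Type} [Field K] [Fintype K] [CharP K 2]

omit [Fintype K] [CharP K 2] in
theorem monic_B (d : ℕ) (v : degreeLT K d) :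
    (X ^ d + (v : K[X])).Monic ∧ (X ^ d + (v : K[X])).natDegree = d := by
  have hdeg : (v : K[X]).degree < (d : WithBot ℕ) := mem_degreeLT.1 v.2
  refine ⟨monic_X_pow_add hdeg, ?_⟩
  have h1 : (X ^ d : K[X]).degree = (d : WithBot ℕ) := degree_X_pow d
  rw [natDegree_eq_of_degree_eq_some]
  rw [degree_add_eq_left_of_degree_lt (by rw [h1]; exact hdeg), h1]

theorem offdiag {k k' A m : ℕ} {U : Finset K[X] → ℝ} (hU1 : ∀ T, |U T| ≤ 1)
    (hU : ∀ T, U T ≠ 0 → T ⊆ PU K m ∧ ∑ P ∈ T, P.natDegree ≤ A * m)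
    (α : Fin k → K[X]) (e : Fin k' → Fin k) (d j y : ℕ) (δ κ κw E : ℝ) (hκ : κ ≤ κw)
    (hE : 0 ≤ E) (p p' : K[X]) (hp : p.Monic ∧ Irreducible p) (hp' : p'.Monic ∧ Irreducible p')
    (hα : ∀ i, ¬ p ∣ α (e i) ∧ ¬ p' ∣ α (e i)) (s t s' t' : Fin k' → K[X])
    (hs : ∀ i, p * α (e i) = s i ^ 2 + X * t i ^ 2)
    (hs' : ∀ i, p' * α (e i) = s' i ^ 2 + X * t' i ^ 2)
    (hmy : m ≤ y) (hyd : y ≤ d) (hAm : (2 * (A * m) : ℝ) ≤ κw * d) (F : K[X]) (hF : F ≠ 0)
    (hwin : ∀ B : K[X], B.Monic → B.natDegree = d →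
      (∀ i, GoodV {P : K[X] | P.natDegree ≤ y} δ κw (d + j) (p * B + t i) ∧
        GoodV {P : K[X] | P.natDegree ≤ y} δ κw (d + j) (p' * B + t' i)) →
      (∀ P : K[X], P.Monic → Irreducible P → y < P.natDegree → P ∣ F →
        ∀ i, ¬ P ∣ p * B + t i ∧ ¬ P ∣ p' * B + t' i) →
      ∀ (D : K[X]) (w : K[X] → ℝ), D ≠ 0 → (D.natDegree : ℝ) ≤ κw * d →
        (∀ P : K[X], P.Monic → Irreducible P → P ∣ D → P.natDegree ≤ y) →
        (∀ u, |w u| ≤ 1) → (∀ u v, w (u + D * v) = w u) →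
        |∑ a : degreeLT K (d + 1), w (a : K[X]) *
          ∏ i, ((mob (p * ((a : K[X]) ^ 2 + X * B ^ 2) + α (e i)) : ℝ) *
            (mob (p' * ((a : K[X]) ^ 2 + X * B ^ 2) + α (e i)) : ℝ))| ≤ E) :
    |∑ g ∈ Mn K (2 * d + 1), xs y δ κ d j m U α e p g * xs y δ κ d j m U α e p' g| ≤
      (Fintype.card K : ℝ) ^ d * ((Fintype.card K : ℝ) ^ (A * m + 1) *
        (Fintype.card K : ℝ) ^ (A * m + 1) * E) +
      ((PF F y).card : ℝ) * (k' * (2 * (Fintype.card K : ℝ) ^ (d - y))) *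
        ((Fintype.card K : ℝ) ^ (d + 1) * ((Fintype.card K : ℝ) ^ (A * m + 1) *
          (Fintype.card K : ℝ) ^ (A * m + 1))) := by
  set Q : ℝ := (Fintype.card K : ℝ) ^ (A * m + 1) with hQ
  have hQ0 : 0 ≤ Q := by positivity
  set bad := (univ : Finset (degreeLT K d)).filter fun v : degreeLT K d =>
      ¬ ∀ P : K[X], P.Monic → Irreducible P → y < P.natDegree → P ∣ F →
        ∀ i, ¬ P ∣ p * (X ^ d + (v : K[X])) + t i ∧ ¬ P ∣ p' * (X ^ d + (v : K[X])) + t' i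
    with hbad
  have hbadc : (bad.card : ℝ) ≤ ((PF F y).card : ℝ) * (k' * (2 * (Fintype.card K : ℝ) ^ (d - y))) := by
    have := card_bad hyd hF (fun i => α (e i)) t t' s s' hp hp' hα hs hs'
    exact_mod_cast this
  rw [sum_Mn]
  refine (abs_sum_le_sum_abs _ _).trans ?_
  have hone : ∀ v' : degreeLT K d, |∑ v : degreeLT K (d + 1),
      xs y δ κ d j m U α e p ((v : K[X]) ^ 2 + X * (X ^ d + (v' : K[X])) ^ 2) *
      xs y δ κ d j m U α e p' ((v : K[X]) ^ 2 + X * (X ^ d + (v' : K[X])) ^ 2)| ≤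
      Q * Q * E + if v' ∈ bad then (Fintype.card K : ℝ) ^ (d + 1) * (Q * Q) else 0 := by
    intro v'
    by_cases hv : v' ∈ bad
    · rw [if_pos hv]
      refine (abs_sum_le_sum_abs _ _).trans ?_
      have h1 : ∀ v ∈ (univ : Finset (degreeLT K (d + 1))),
          |xs y δ κ d j m U α e p ((v : K[X]) ^ 2 + X * (X ^ d + (v' : K[X])) ^ 2) *
          xs y δ κ d j m U α e p' ((v : K[X]) ^ 2 + X * (X ^ d + (v' : K[X])) ^ 2)| ≤ Q * Q := by
        intro v _
        rw [abs_mul]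
        exact mul_le_mul (xs_abs hU1 hU α e p _) (xs_abs hU1 hU α e p' _) (abs_nonneg _) hQ0
      refine (sum_le_sum h1).trans ?_
      rw [sum_const, nsmul_eq_mul, Finset.card_univ, card_deg]
      push_cast
      have : 0 ≤ Q * Q * E := by positivity
      linarith
    · rw [if_neg hv, add_zero]
      have hgen : ∀ P : K[X], P.Monic → Irreducible P → y < P.natDegree → P ∣ F →
        ∀ i, ¬ P ∣ p * (X ^ d + (v' : K[X])) + t i ∧
          ¬ P ∣ p' * (X ^ d + (v' : K[X])) + t' i := by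
        by_contra hcon
        exact hv (mem_filter.2 ⟨mem_univ _, hcon⟩)
      obtain ⟨hB1, hB2⟩ := monic_B d v'
      by_cases hg : (∀ i : Fin k', GoodV {P : K[X] | P.natDegree ≤ y} δ κ (d + j)
          (p * (X ^ d + (v' : K[X])) + t i)) ∧ (∀ i : Fin k',
          GoodV {P : K[X] | P.natDegree ≤ y} δ κ (d + j) (p' * (X ^ d + (v' : K[X])) + t' i))
      · have h2 := fibre hU1 hU α e d y κw E hE p p' (X ^ d + (v' : K[X])) hmy hAm
          (hwin _ hB1 hB2 (fun i => ⟨GoodV_mono hκ (hg.1 i), GoodV_mono hκ (hg.2 i)⟩) hgen)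
        refine le_trans (le_of_eq ?_) h2
        congr 1
        refine sum_congr rfl fun v _ => ?_
        rw [xs_G y δ κ d j m U α e p _ _ s t hs, xs_G y δ κ d j m U α e p' _ _ s' t' hs',
          if_pos hg.1, if_pos hg.2]
      · have h3 : ∀ v ∈ (univ : Finset (degreeLT K (d + 1))),
            xs y δ κ d j m U α e p ((v : K[X]) ^ 2 + X * (X ^ d + (v' : K[X])) ^ 2) *
            xs y δ κ d j m U α e p' ((v : K[X]) ^ 2 + X * (X ^ d + (v' : K[X])) ^ 2) = 0 := by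
          intro v _
          rw [xs_G y δ κ d j m U α e p _ _ s t hs, xs_G y δ κ d j m U α e p' _ _ s' t' hs']
          rcases not_and_or.1 hg with h | h
          · rw [if_neg h, zero_mul]
          · rw [if_neg h, mul_zero]
        rw [sum_eq_zero h3, abs_zero]
        positivity
  refine (sum_le_sum fun v' _ => hone v').trans ?_
  rw [sum_add_distrib, sum_const, nsmul_eq_mul, Finset.card_univ, card_deg, ← sum_filter]
  rw [sum_const, nsmul_eq_mul]
  have hfb : (univ : Finset (degreeLT K d)).filter (fun v => v ∈ bad) = bad := by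
    ext v; simp
  rw [hfb]
  push_cast
  have h4 : (bad.card : ℝ) * ((Fintype.card K : ℝ) ^ (d + 1) * (Q * Q)) ≤
      ((PF F y).card : ℝ) * (k' * (2 * (Fintype.card K : ℝ) ^ (d - y))) *
        ((Fintype.card K : ℝ) ^ (d + 1) * (Q * Q)) :=
    mul_le_mul_of_nonneg_right hbadc (by positivity)
  linarith

omit [Field K] [Fintype K] [CharP K 2] in
/-- Cauchy-Schwarz. -/
theorem cs {ι κ : Type} (P : Finset ι) (Gs M : Finset κ) (hGs : Gs ⊆ M) (x : ι → κ → ℝ) :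
    (∑ p ∈ P, ∑ g ∈ Gs, x p g) ^ 2 ≤
      (M.card : ℝ) * ∑ p ∈ P, ∑ p' ∈ P, ∑ g ∈ M, x p g * x p' g := by
  rw [sum_comm]
  have h1 := sq_sum_le_card_mul_sum_sq (s := Gs) (f := fun g => ∑ p ∈ P, x p g)
  have h2 : ∑ g ∈ Gs, (∑ p ∈ P, x p g) ^ 2 ≤ ∑ g ∈ M, (∑ p ∈ P, x p g) ^ 2 :=
    sum_le_sum_of_subset_of_nonneg hGs fun _ _ _ => sq_nonneg _
  have h3 : (Gs.card : ℝ) ≤ (M.card : ℝ) := by exact_mod_cast card_le_card hGs
  have h4 : 0 ≤ ∑ g ∈ M, (∑ p ∈ P, x p g) ^ 2 := sum_nonneg fun _ _ => sq_nonneg _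
  have h5 : ∑ g ∈ M, (∑ p ∈ P, x p g) ^ 2 = ∑ p ∈ P, ∑ p' ∈ P, ∑ g ∈ M, x p g * x p' g := by
    have : ∀ g ∈ M, (∑ p ∈ P, x p g) ^ 2 = ∑ p ∈ P, ∑ p' ∈ P, x p g * x p' g := by
      intro g _
      rw [sq, sum_mul_sum]
    rw [sum_congr rfl this, sum_comm]
    refine sum_congr rfl fun p _ => ?_
    rw [sum_comm]
  rw [← h5]
  calc (∑ g ∈ Gs, ∑ p ∈ P, x p g) ^ 2
      ≤ (Gs.card : ℝ) * ∑ g ∈ Gs, (∑ p ∈ P, x p g) ^ 2 := h1
    _ ≤ (Gs.card : ℝ) * ∑ g ∈ M, (∑ p ∈ P, x p g) ^ 2 :=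
        mul_le_mul_of_nonneg_left h2 (Nat.cast_nonneg _)
    _ ≤ (M.card : ℝ) * ∑ g ∈ M, (∑ p ∈ P, x p g) ^ 2 := mul_le_mul_of_nonneg_right h3 h4

omit [Field K] [Fintype K] [CharP K 2] in
/-- The diagonal and the off-diagonal terms. -/
theorem diag_off {ι κ : Type} [DecidableEq ι] (P : Finset ι) (M : Finset κ) (x : ι → κ → ℝ)
    (Q W J : ℝ) (hQ : ∀ p g, |x p g| ≤ Q) (hW0 : 0 ≤ W) (hJ : (P.card : ℝ) ≤ J)
    (hW : ∀ p ∈ P, ∀ p' ∈ P, p ≠ p' → |∑ g ∈ M, x p g * x p' g| ≤ W) :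
    ∑ p ∈ P, ∑ p' ∈ P, ∑ g ∈ M, x p g * x p' g ≤ J * ((M.card : ℝ) * (Q * Q)) + J * J * W := by
  by_cases hP0 : P.Nonempty ∧ M.Nonempty
  · obtain ⟨⟨p0, _⟩, ⟨g0, _⟩⟩ := hP0
    have hQ0 : 0 ≤ Q := (abs_nonneg _).trans (hQ p0 g0)
    have hJ0 : 0 ≤ J := le_trans (Nat.cast_nonneg _) hJ
    have h1 : ∀ p ∈ P, ∑ p' ∈ P, ∑ g ∈ M, x p g * x p' g ≤ (M.card : ℝ) * (Q * Q) + J * W := by
      intro p hp
      rw [← add_sum_erase P _ hp]
      have h2 : ∑ g ∈ M, x p g * x p g ≤ (M.card : ℝ) * (Q * Q) := by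
        rw [← nsmul_eq_mul, ← sum_const]
        refine sum_le_sum fun g _ => ?_
        rw [← abs_mul_abs_self]
        exact mul_le_mul (hQ p g) (hQ p g) (abs_nonneg _) hQ0
      have h3 : ∑ p' ∈ P.erase p, ∑ g ∈ M, x p g * x p' g ≤ J * W := by
        have h4 : ∀ p' ∈ P.erase p, ∑ g ∈ M, x p g * x p' g ≤ W := by
          intro p' hp'
          rw [mem_erase] at hp'
          exact (le_abs_self _).trans (hW p hp p' hp'.2 (Ne.symm hp'.1))
        refine (sum_le_sum h4).trans ?_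
        rw [sum_const, nsmul_eq_mul]
        refine mul_le_mul_of_nonneg_right ?_ hW0
        refine le_trans ?_ hJ
        exact_mod_cast card_le_card (erase_subset _ _)
      exact add_le_add h2 h3
    refine (sum_le_sum h1).trans ?_
    rw [sum_const, nsmul_eq_mul]
    have h5 : 0 ≤ (M.card : ℝ) * (Q * Q) + J * W := by positivity
    calc (P.card : ℝ) * ((M.card : ℝ) * (Q * Q) + J * W)
        ≤ J * ((M.card : ℝ) * (Q * Q) + J * W) := mul_le_mul_of_nonneg_right hJ h5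
      _ = _ := by ring
  · have hJ0 : 0 ≤ J := le_trans (Nat.cast_nonneg _) hJ
    have hz : ∑ p ∈ P, ∑ p' ∈ P, ∑ g ∈ M, x p g * x p' g = 0 := by
      rcases not_and_or.1 hP0 with h | h
      · rw [not_nonempty_iff_eq_empty.1 h, sum_empty]
      · rw [not_nonempty_iff_eq_empty.1 h]
        simp
    rw [hz]
    have : 0 ≤ Q * Q := mul_self_nonneg Q
    positivity

end Pool.Agent.H139.E2

namespace Pool.Agent.H139.E2

open Polynomial Finset
open scoped Classical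
open Pool.Agent.H985.Chow (mob MD)
open Pool.Agent.H985.Chow.Asm (G G_inj G_surj G_add sum_MD card_deg mem_of_natDegree_lt
  natDegree_lt_of_mem abs_mob)
open Pool.Agent.H985.Par (GoodV Sft)
open Pool.Agent.H694.Typ (Mn Irn PU mem_Mn card_Mn mem_Irn mem_PU)
open Pool.Agent.H560.E2

theorem large (q M μ : ℝ) (hq : 2 ≤ q) (hM : 0 < M) (hμ : 0 < μ) :
    ∃ n₀ : ℕ, ∀ d : ℕ, n₀ ≤ d → M ≤ q ^ (μ * d) := by
  obtain ⟨n₀, hn₀⟩ := exists_nat_ge (Real.logb q M / μ)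
  refine ⟨n₀, fun d hd => ?_⟩
  have h1 : Real.logb q M ≤ μ * d := by
    rw [div_le_iff₀ hμ] at hn₀
    have : (n₀ : ℝ) ≤ d := by exact_mod_cast hd
    nlinarith
  calc M = q ^ Real.logb q M := (Real.rpow_logb (by linarith) (by linarith) hM).symm
    _ ≤ q ^ (μ * d) := Real.rpow_le_rpow_of_exponent_le (by linarith) h1

theorem arith (q : ℝ) (hq : 2 ≤ q) (μ η c C : ℝ) (A k' : ℕ) (hμ : 0 < μ) (hμη : μ ≤ η)
    (hμc : μ ≤ c) (hC : 0 ≤ C) : ∃ n₀ : ℕ, ∀ d j y m NF : ℕ, n₀ ≤ d → η * d ≤ (j : ℝ) →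
      η * d ≤ (y : ℝ) → y ≤ d → (2 * (A * m) : ℝ) ≤ μ / 2 * d → (NF : ℝ) * η ≤ C →
      q ^ (2 * d + 1) * (q ^ j * (q ^ (2 * d + 1) * (q ^ (A * m + 1) * q ^ (A * m + 1))) +
        q ^ j * q ^ j * (q ^ d * (q ^ (A * m + 1) * q ^ (A * m + 1) * q ^ ((d : ℝ) - c * d)) +
          (NF : ℝ) * (k' * (2 * q ^ (d - y))) *
            (q ^ (d + 1) * (q ^ (A * m + 1) * q ^ (A * m + 1))))) ≤
        (q ^ (2 * (d : ℝ) + 1 + j - μ / 8 * d)) ^ 2 := by
  have hq0 : 0 < q := by linarith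
  have hq1 : 1 ≤ q := by linarith
  have hη : 0 < η := by linarith
  obtain ⟨n₀, hn₀⟩ := large q ((2 + 2 * k' * (C / η)) * q ^ (2 : ℝ)) (μ / 4) hq
    (by positivity) (by positivity)
  refine ⟨n₀, fun d j y m NF hd hj hy hyd hAm hNF => ?_⟩
  have hNF' : (NF : ℝ) ≤ C / η := by rwa [le_div_iff₀ hη]
  have hd0 : (0 : ℝ) ≤ d := Nat.cast_nonneg d
  have hμd : μ * d ≤ η * d := mul_le_mul_of_nonneg_right hμη hd0
  have hμd' : μ * d ≤ c * d := mul_le_mul_of_nonneg_right hμc hd0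
  set E : ℝ := 2 * (2 * (d : ℝ) + 1 + j) + 2 - μ / 2 * d with hE
  have p1 : q ^ (2 * d + 1) * (q ^ j * (q ^ (2 * d + 1) * (q ^ (A * m + 1) * q ^ (A * m + 1)))) ≤
      q ^ E := by
    rw [← Real.rpow_natCast, ← Real.rpow_natCast, ← Real.rpow_natCast, ← Real.rpow_add hq0,
      ← Real.rpow_add hq0, ← Real.rpow_add hq0, ← Real.rpow_add hq0]
    refine Real.rpow_le_rpow_of_exponent_le hq1 ?_
    push_cast
    rw [hE]
    linarith
  have p2 : q ^ (2 * d + 1) * (q ^ j * q ^ j *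
      (q ^ d * (q ^ (A * m + 1) * q ^ (A * m + 1) * q ^ ((d : ℝ) - c * d)))) ≤ q ^ E := by
    rw [← Real.rpow_natCast, ← Real.rpow_natCast, ← Real.rpow_natCast, ← Real.rpow_natCast,
      ← Real.rpow_add hq0, ← Real.rpow_add hq0, ← Real.rpow_add hq0, ← Real.rpow_add hq0,
      ← Real.rpow_add hq0, ← Real.rpow_add hq0]
    refine Real.rpow_le_rpow_of_exponent_le hq1 ?_
    push_cast
    rw [hE]
    linarith
  have p3 : q ^ (2 * d + 1) * (q ^ j * q ^ j * (q ^ (d - y) *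
      (q ^ (d + 1) * (q ^ (A * m + 1) * q ^ (A * m + 1))))) ≤ q ^ E := by
    rw [← Real.rpow_natCast, ← Real.rpow_natCast, ← Real.rpow_natCast, ← Real.rpow_natCast,
      ← Real.rpow_natCast, ← Real.rpow_add hq0, ← Real.rpow_add hq0, ← Real.rpow_add hq0,
      ← Real.rpow_add hq0, ← Real.rpow_add hq0, ← Real.rpow_add hq0]
    refine Real.rpow_le_rpow_of_exponent_le hq1 ?_
    rw [Nat.cast_sub hyd]
    push_cast
    rw [hE]
    linarith
  have hEpos : 0 < q ^ E := Real.rpow_pos_of_pos hq0 _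
  have hfin : (2 + 2 * k' * (NF : ℝ)) * q ^ E ≤ (q ^ (2 * (d : ℝ) + 1 + j - μ / 8 * d)) ^ 2 := by
    have h1 : q ^ E = q ^ (2 : ℝ) * q ^ (2 * (2 * (d : ℝ) + 1 + j) - μ / 2 * d) := by
      rw [← Real.rpow_add hq0]
      congr 1
      rw [hE]
      ring
    have h2 : (q ^ (2 * (d : ℝ) + 1 + j - μ / 8 * d)) ^ 2 =
        q ^ (μ / 4 * d) * q ^ (2 * (2 * (d : ℝ) + 1 + j) - μ / 2 * d) := by
      rw [← Real.rpow_natCast, ← Real.rpow_mul hq0.le, ← Real.rpow_add hq0]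
      congr 1
      push_cast
      ring
    rw [h1, h2, ← mul_assoc]
    refine mul_le_mul_of_nonneg_right ?_ (Real.rpow_pos_of_pos hq0 _).le
    refine le_trans ?_ (hn₀ d hd)
    refine mul_le_mul_of_nonneg_right ?_ (Real.rpow_pos_of_pos hq0 _).le
    have : 2 * k' * (NF : ℝ) ≤ 2 * k' * (C / η) := mul_le_mul_of_nonneg_left hNF' (by positivity)
    linarith
  refine le_trans ?_ hfin
  have hc : 0 ≤ 2 * (k' : ℝ) * NF := by positivity
  have p3' := mul_le_mul_of_nonneg_left p3 hc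
  have e1 : q ^ (2 * d + 1) * (q ^ j * (q ^ (2 * d + 1) * (q ^ (A * m + 1) * q ^ (A * m + 1))) +
        q ^ j * q ^ j * (q ^ d * (q ^ (A * m + 1) * q ^ (A * m + 1) * q ^ ((d : ℝ) - c * d)) +
          (NF : ℝ) * (k' * (2 * q ^ (d - y))) *
            (q ^ (d + 1) * (q ^ (A * m + 1) * q ^ (A * m + 1))))) =
      q ^ (2 * d + 1) * (q ^ j * (q ^ (2 * d + 1) * (q ^ (A * m + 1) * q ^ (A * m + 1)))) +
      q ^ (2 * d + 1) * (q ^ j * q ^ j *
      (q ^ d * (q ^ (A * m + 1) * q ^ (A * m + 1) * q ^ ((d : ℝ) - c * d)))) +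
      2 * (k' : ℝ) * NF * (q ^ (2 * d + 1) * (q ^ j * q ^ j * (q ^ (d - y) *
      (q ^ (d + 1) * (q ^ (A * m + 1) * q ^ (A * m + 1)))))) := by ring
  rw [e1]
  linarith

theorem bil_k (h : S_winP) (K : Type) [Field K] [Fintype K] [CharP K 2] (k' A : ℕ) (δ : ℝ)
    (hk : 1 ≤ k') (hδ : 0 < δ) :
    ∃ κ₀ : ℝ, 0 < κ₀ ∧ κ₀ ≤ 1 / 8 ∧ ∀ κ : ℝ, 0 < κ → κ ≤ κ₀ → ∀ η : ℝ, 0 < η →
      ∃ κ' c : ℝ, 0 < κ' ∧ 0 < c ∧ ∃ n₀ : ℕ, ∀ d j y m : ℕ, n₀ ≤ d → η * d ≤ (j : ℝ) →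
        (j : ℝ) ≤ κ * d → η * d ≤ (y : ℝ) → (y : ℝ) ≤ κ * d → (m : ℝ) ≤ κ' * d →
        ∀ (k : ℕ) (α : Fin k → K[X]) (S : Finset (Fin k)) (U : Finset K[X] → ℝ)
          (Gs : Finset K[X]), Function.Injective α → (∀ i, (α i).natDegree < 2 * d + 1 + j) →
          S.card = k' → (∀ T, |U T| ≤ 1) →
          (∀ T, U T ≠ 0 → T ⊆ PU K m ∧ ∑ P ∈ T, P.natDegree ≤ A * m) →
          Gs ⊆ Mn K (2 * d + 1) →
          |∑ p ∈ (Irn K j).filter (fun p => ∀ i, ¬ p ∣ α i), ∑ g ∈ Gs,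
            (if ∀ i ∈ S, GdF y δ κ (d + j) (p * (p * g + α i)) then
              th m U α (p * g) * ∏ i ∈ S, (mob (p * g + α i) : ℝ) else 0)| ≤
            (Fintype.card K : ℝ) ^ (2 * (d : ℝ) + 1 + j - c * d) := by
  obtain ⟨κw, c, hκw0, hκw8, hc, C, n₁, hwin⟩ := h K k' δ hk hδ
  refine ⟨κw, hκw0, hκw8, fun κ hκ0 hκκ η hη => ?_⟩
  have hq : (2 : ℝ) ≤ Fintype.card K := by exact_mod_cast (Fintype.one_lt_card : 1 < Fintype.card K)
  set μ : ℝ := min η c with hμ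
  have hμ0 : 0 < μ := lt_min hη hc
  obtain ⟨n₂, harith⟩ := arith (Fintype.card K : ℝ) hq μ η c C A k' hμ0 (min_le_left _ _)
    (min_le_right _ _) (Nat.cast_nonneg _)
  refine ⟨min η (min (κw / (2 * (A + 1))) (μ / (4 * (A + 1)))), μ / 8, ?_, by positivity,
    max (max n₁ n₂) 1, ?_⟩
  · exact lt_min hη (lt_min (by positivity) (by positivity))
  intro d j y m hd hηj hjκ hηy hyκ hm k α S U Gs hα hdeg hS hU1 hU hGs
  have hdn1 : n₁ ≤ d := le_trans (le_trans (le_max_left _ _) (le_max_left _ _)) hd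
  have hdn2 : n₂ ≤ d := le_trans (le_trans (le_max_right _ _) (le_max_left _ _)) hd
  have hd1 : 1 ≤ d := le_trans (le_max_right _ _) hd
  have hdpos : (0 : ℝ) < d := by exact_mod_cast hd1
  have hA0 : (0 : ℝ) ≤ A := Nat.cast_nonneg A
  have hm1 : (m : ℝ) ≤ η * d :=
    hm.trans (mul_le_mul_of_nonneg_right (min_le_left _ _) hdpos.le)
  have hm2 : (m : ℝ) ≤ κw / (2 * (A + 1)) * d :=
    hm.trans (mul_le_mul_of_nonneg_right ((min_le_right _ _).trans (min_le_left _ _)) hdpos.le)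
  have hm3 : (m : ℝ) ≤ μ / (4 * (A + 1)) * d :=
    hm.trans (mul_le_mul_of_nonneg_right ((min_le_right _ _).trans (min_le_right _ _)) hdpos.le)
  have hmy : m ≤ y := by exact_mod_cast hm1.trans hηy
  have hAm : (2 * (A * m) : ℝ) ≤ κw * d := by
    have h1 : (2 * (A * m) : ℝ) ≤ 2 * (A * (κw / (2 * (A + 1)) * d)) := by
      have := mul_le_mul_of_nonneg_left hm2 hA0
      linarith
    refine h1.trans ?_
    have h2 : 2 * ((A : ℝ) * (κw / (2 * (A + 1)) * d)) = κw * d * (A / (A + 1)) := by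
      field_simp
    rw [h2]
    have h3 : (A : ℝ) / (A + 1) ≤ 1 := by
      rw [div_le_one (by positivity)]
      linarith
    calc κw * d * ((A : ℝ) / (A + 1)) ≤ κw * d * 1 :=
          mul_le_mul_of_nonneg_left h3 (by positivity)
      _ = κw * d := mul_one _
  have hAm2 : (2 * (A * m) : ℝ) ≤ μ / 2 * d := by
    have h1 : (2 * (A * m) : ℝ) ≤ 2 * (A * (μ / (4 * (A + 1)) * d)) := by
      have := mul_le_mul_of_nonneg_left hm3 hA0
      linarith
    refine h1.trans ?_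
    have h2 : 2 * ((A : ℝ) * (μ / (4 * (A + 1)) * d)) = μ / 2 * d * (A / (A + 1)) := by
      field_simp
      ring
    rw [h2]
    have h3 : (A : ℝ) / (A + 1) ≤ 1 := by
      rw [div_le_one (by positivity)]
      linarith
    calc μ / 2 * d * ((A : ℝ) / (A + 1)) ≤ μ / 2 * d * 1 :=
          mul_le_mul_of_nonneg_left h3 (by positivity)
      _ = μ / 2 * d := mul_one _
  have hκ8 : κ ≤ 1 / 8 := hκκ.trans hκw8
  have hyd : y ≤ d := by
    have : (y : ℝ) ≤ d := by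
      refine hyκ.trans ?_
      nlinarith
    exact_mod_cast this
  have hj1 : 1 ≤ j := by
    have : (0 : ℝ) < j := lt_of_lt_of_le (by positivity) hηj
    exact_mod_cast this
  have hjw : (j : ℝ) ≤ κw * d := hjκ.trans (mul_le_mul_of_nonneg_right hκκ hdpos.le)
  have hyw : (y : ℝ) ≤ κw * d := hyκ.trans (mul_le_mul_of_nonneg_right hκκ hdpos.le)
  -- reindexing
  set e : Fin k' → Fin k := fun i => (S.orderIsoOfFin hS i : Fin k) with he
  have heS : ∀ i, e i ∈ S := fun i => (S.orderIsoOfFin hS i).2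
  have heinj : Function.Injective e := fun a b hab =>
    (S.orderIsoOfFin hS).injective (Subtype.ext hab)
  have hprod : ∀ f : Fin k → ℝ, ∏ i ∈ S, f i = ∏ i : Fin k', f (e i) := by
    intro f
    rw [← prod_coe_sort S f]
    exact (Equiv.prod_comp (S.orderIsoOfFin hS).toEquiv (fun i : S => f i)).symm
  have hall : ∀ P : Fin k → Prop, (∀ i ∈ S, P i) ↔ ∀ i : Fin k', P (e i) := by
    intro P
    constructor
    · intro hP i
      exact hP _ (heS i)
    · intro hP i hi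
      have h1 := hP ((S.orderIsoOfFin hS).symm ⟨i, hi⟩)
      have h2 : e ((S.orderIsoOfFin hS).symm ⟨i, hi⟩) = i := by
        rw [he]
        simp
      rwa [h2] at h1
  set PJ := (Irn K j).filter (fun p => ∀ i, ¬ p ∣ α i) with hPJ
  have hxs : ∀ p ∈ PJ, ∀ g ∈ Gs, (if ∀ i ∈ S, GdF y δ κ (d + j) (p * (p * g + α i)) then
      th m U α (p * g) * ∏ i ∈ S, (mob (p * g + α i) : ℝ) else 0) =
      xs y δ κ d j m U α e p g := by
    intro p _ g _
    unfold xs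
    rw [hprod, if_congr (hall _) rfl rfl]
  rw [sum_congr rfl fun p hp => sum_congr rfl fun g hg => hxs p hp g hg]
  refine abs_le_of_sq_le_sq ?_ (Real.rpow_pos_of_pos (by linarith) _).le
  refine (cs PJ Gs (Mn K (2 * d + 1)) hGs (fun p g => xs y δ κ d j m U α e p g)).trans ?_
  have hPJc : (PJ.card : ℝ) ≤ (Fintype.card K : ℝ) ^ j := by
    have h1 : PJ.card ≤ (Mn K j).card := by
      refine card_le_card ?_
      intro p hp
      have := mem_Irn.1 (mem_filter.1 hp).1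
      exact mem_Mn.2 ⟨this.1, this.2.1⟩
    rw [card_Mn] at h1
    exact_mod_cast h1
  -- the number of the large prime divisors
  obtain ⟨NF, hNF, hoff⟩ : ∃ NF : ℕ, (NF : ℝ) * η ≤ C ∧ ∀ p ∈ PJ, ∀ p' ∈ PJ, p ≠ p' →
      |∑ g ∈ Mn K (2 * d + 1), xs y δ κ d j m U α e p g * xs y δ κ d j m U α e p' g| ≤
      (Fintype.card K : ℝ) ^ d * ((Fintype.card K : ℝ) ^ (A * m + 1) *
        (Fintype.card K : ℝ) ^ (A * m + 1) * (Fintype.card K : ℝ) ^ ((d : ℝ) - c * d)) +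
      (NF : ℝ) * (k' * (2 * (Fintype.card K : ℝ) ^ (d - y))) *
        ((Fintype.card K : ℝ) ^ (d + 1) * ((Fintype.card K : ℝ) ^ (A * m + 1) *
          (Fintype.card K : ℝ) ^ (A * m + 1))) := by
    refine ⟨⌊(C : ℝ) / η⌋₊, ?_, ?_⟩
    · have := Nat.floor_le (show (0 : ℝ) ≤ C / η by positivity)
      rwa [le_div_iff₀ hη] at this
    intro p hp p' hp' hne
    have hp1 := mem_Irn.1 (mem_filter.1 hp).1
    have hp1' := mem_Irn.1 (mem_filter.1 hp').1
    have hs : ∀ i : Fin k', ∃ st : K[X] × K[X], p * α (e i) = st.1 ^ 2 + X * st.2 ^ 2 := by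
      intro i
      obtain ⟨a, b, hab⟩ := G_surj (p * α (e i))
      exact ⟨(a, b), hab.symm⟩
    have hs' : ∀ i : Fin k', ∃ st : K[X] × K[X], p' * α (e i) = st.1 ^ 2 + X * st.2 ^ 2 := by
      intro i
      obtain ⟨a, b, hab⟩ := G_surj (p' * α (e i))
      exact ⟨(a, b), hab.symm⟩
    choose st hst using hs
    choose st' hst' using hs'
    obtain ⟨F, hF, hFC, hFwin⟩ := hwin d j y hdn1 hj1 hjw hyw (fun i => α (e i))
      (fun i => (st i).1) (fun i => (st i).2) (fun i => (st' i).1) (fun i => (st' i).2) p p'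
      (fun a b hab => heinj (hα hab)) (fun i => hdeg _) (mem_filter.1 hp).1 (mem_filter.1 hp').1
      hne (fun i => ⟨(mem_filter.1 hp).2 _, (mem_filter.1 hp').2 _⟩) hst hst'
    have h1 := offdiag hU1 hU α e d j y δ κ κw ((Fintype.card K : ℝ) ^ ((d : ℝ) - c * d)) hκκ
      (Real.rpow_pos_of_pos (by linarith) _).le p p' ⟨hp1.1, hp1.2.2⟩ ⟨hp1'.1, hp1'.2.2⟩
      (fun i => ⟨(mem_filter.1 hp).2 _, (mem_filter.1 hp').2 _⟩)
      (fun i => (st i).1) (fun i => (st i).2) (fun i => (st' i).1) (fun i => (st' i).2)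
      hst hst' hmy hyd hAm F hF hFwin
    refine h1.trans ?_
    have h2 : (PF F y).card ≤ ⌊(C : ℝ) / η⌋₊ := by
      refine Nat.le_floor ?_
      rw [le_div_iff₀ hη]
      have h3 : (((PF F y).card * y : ℕ) : ℝ) ≤ (C * d : ℕ) := by
        exact_mod_cast (card_PF hF y).trans hFC
      push_cast at h3
      have h4 : ((PF F y).card : ℝ) * (η * d) ≤ ((PF F y).card : ℝ) * y :=
        mul_le_mul_of_nonneg_left hηy (Nat.cast_nonneg _)
      have h5 : ((PF F y).card : ℝ) * η * d ≤ C * d := by linarith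
      exact le_of_mul_le_mul_right h5 hdpos
    have h3 : ((PF F y).card : ℝ) ≤ (⌊(C : ℝ) / η⌋₊ : ℝ) := by exact_mod_cast h2
    have h4 : ((PF F y).card : ℝ) * (k' * (2 * (Fintype.card K : ℝ) ^ (d - y))) *
        ((Fintype.card K : ℝ) ^ (d + 1) * ((Fintype.card K : ℝ) ^ (A * m + 1) *
          (Fintype.card K : ℝ) ^ (A * m + 1))) ≤
        (⌊(C : ℝ) / η⌋₊ : ℝ) * (k' * (2 * (Fintype.card K : ℝ) ^ (d - y))) *
        ((Fintype.card K : ℝ) ^ (d + 1) * ((Fintype.card K : ℝ) ^ (A * m + 1) *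
          (Fintype.card K : ℝ) ^ (A * m + 1))) :=
      mul_le_mul_of_nonneg_right (mul_le_mul_of_nonneg_right h3 (by positivity)) (by positivity)
    linarith
  have hW0 : 0 ≤ (Fintype.card K : ℝ) ^ d * ((Fintype.card K : ℝ) ^ (A * m + 1) *
        (Fintype.card K : ℝ) ^ (A * m + 1) * (Fintype.card K : ℝ) ^ ((d : ℝ) - c * d)) +
      (NF : ℝ) * (k' * (2 * (Fintype.card K : ℝ) ^ (d - y))) *
        ((Fintype.card K : ℝ) ^ (d + 1) * ((Fintype.card K : ℝ) ^ (A * m + 1) *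
          (Fintype.card K : ℝ) ^ (A * m + 1))) := by
    have : 0 ≤ (Fintype.card K : ℝ) ^ ((d : ℝ) - c * d) := Real.rpow_nonneg (by linarith) _
    positivity
  have hdo := diag_off PJ (Mn K (2 * d + 1)) (fun p g => xs y δ κ d j m U α e p g)
    ((Fintype.card K : ℝ) ^ (A * m + 1)) _ ((Fintype.card K : ℝ) ^ j)
    (fun p g => xs_abs hU1 hU α e p g) hW0 hPJc hoff
  have hcM : ((Mn K (2 * d + 1)).card : ℝ) = (Fintype.card K : ℝ) ^ (2 * d + 1) := by
    rw [card_Mn]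
    push_cast
    rfl
  rw [hcM] at hdo ⊢
  refine (mul_le_mul_of_nonneg_left hdo (by positivity)).trans ?_
  exact harith d j y m NF hdn2 hηj hηy hyd hAm2 hNF

theorem lower_bound (s : Finset ℕ) (f : ℕ → ℝ) (hf : ∀ i ∈ s, 0 < f i) :
    ∃ c : ℝ, 0 < c ∧ ∀ i ∈ s, c ≤ f i := by
  induction s using Finset.induction_on with
  | empty => exact ⟨1, one_pos, fun i hi => absurd hi (notMem_empty i)⟩
  | insert a s ha ih =>
    obtain ⟨c, hc, h⟩ := ih fun i hi => hf i (mem_insert_of_mem hi)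
    refine ⟨min c (f a), lt_min hc (hf a (mem_insert_self _ _)), fun i hi => ?_⟩
    rcases mem_insert.1 hi with rfl | hi
    · exact min_le_right _ _
    · exact (min_le_left _ _).trans (h i hi)

theorem bilP (h : S_winP) : S_bilP := by
  intro K _ _ _ k A δ hδ
  have hq : (2 : ℝ) ≤ Fintype.card K := by exact_mod_cast (Fintype.one_lt_card : 1 < Fintype.card K)
  have hk := fun (k' : ℕ) (hk' : 1 ≤ k') => bil_k h K k' A δ hk' hδ
  choose! κf hκ0 hκ8 hκ using hk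
  obtain ⟨κ₁, hκ₁0, hκ₁⟩ := lower_bound (Icc 1 k) κf fun i hi => hκ0 i (mem_Icc.1 hi).1
  refine ⟨min κ₁ (1 / 8), lt_min hκ₁0 (by norm_num), min_le_right _ _, fun η hη => ?_⟩
  have hη' := fun (k' : ℕ) (hk' : k' ∈ Icc 1 k) => hκ k' (mem_Icc.1 hk').1 (min κ₁ (1 / 8))
    (lt_min hκ₁0 (by norm_num)) ((min_le_left _ _).trans (hκ₁ k' hk')) η hη
  choose! κ'f cf hκ' hcf nf hnf using hη'
  obtain ⟨κ₂, hκ₂0, hκ₂⟩ := lower_bound (Icc 1 k) κ'f fun i hi => hκ' i hi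
  obtain ⟨c₂, hc₂0, hc₂⟩ := lower_bound (Icc 1 k) cf fun i hi => hcf i hi
  refine ⟨κ₂, c₂, hκ₂0, hc₂0, (Icc 1 k).sup nf, ?_⟩
  intro d j y m hd hηj hjκ hηy hyκ hm α S U Gs hα hdeg hS hU1 hU hGs
  have hmem : S.card ∈ Icc 1 k := by
    rw [mem_Icc]
    refine ⟨card_pos.2 hS, ?_⟩
    have := card_le_univ S
    rwa [Fintype.card_fin] at this
  have hd0 : (0 : ℝ) ≤ d := Nat.cast_nonneg d
  have h1 := hnf S.card hmem d j y m ((le_sup hmem).trans hd) hηj hjκ hηy hyκ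
    (hm.trans (mul_le_mul_of_nonneg_right (hκ₂ _ hmem) hd0)) k α S U Gs hα hdeg rfl hU1 hU hGs
  refine h1.trans ?_
  refine Real.rpow_le_rpow_of_exponent_le (by linarith) ?_
  have := mul_le_mul_of_nonneg_right (hc₂ _ hmem) hd0
  linarith

end Pool.Agent.H139.E2

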